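import Pool.Agent.Helper80.SD.LineE
import Pool.Agent.Helper69.SD.Sq
import Pool.Agent.Helper15.SD.OddPt

/-! # SD: case (E) over the polynomial ring -/

set_option autoImplicit false
set_option linter.unusedVariables false
set_option linter.unusedSectionVars false

namespace Pool.Agent.Helper80.SD

open MvPolynomial Module Matrix QuadraticMap Pool.Agent.Helper16 Pool.Agent.Helper69.SD
  Pool.Agent.Helper15.SD

/-- case (E) over `ℂ[T₁, T₂]` -/
theorem line_P {D : Dat} (hsm : Smooth D.F) (ha : D.a ≠ 0) (hb : D.b ≠ 0)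
    (hn : ∃ c : Fin 2 → ℂ, D.dt c ≠ 0) {K' : Type} [Field K'] [Algebra (FractionRing P2) K']
    [Algebra ℂ K'] [IsScalarTower ℂ (FractionRing P2) K']
    (hodd : Odd (Module.finrank (FractionRing P2) K')) (x : Fin 6 → K') (h0 : D.cubic x = 0)
    (h4 : x 4 ≠ 0) (hq : D.Q x 0 ≠ 0)
    (h1 : D.Q x 1 = algebraMap (FractionRing P2) K' (algebraMap P2 _ (X 0)) * D.Q x 0)
    (h2 : D.Q x 2 = algebraMap (FractionRing P2) K' (algebraMap P2 _ (X 1)) * D.Q x 0)
    {s : Fin 5 → P2} (hs : s ≠ 0) (hH : ∀ i, D.H (X : Fin 2 → P2) i s = 0) (hs4 : s 4 = 0) :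
    ∃ s' : Fin 5 → P2, (∀ i, D.H X i s' = 0) ∧ s' 4 ≠ 0 := by
  classical
  let K := FractionRing P2
  let φ : P2 →ₐ[ℂ] K := IsScalarTower.toAlgHom ℂ P2 K
  let ψ : K →ₐ[ℂ] K' := IsScalarTower.toAlgHom ℂ K K'
  have hinj : Function.Injective φ := FaithfulSMul.algebraMap_injective P2 K
  let tK : Fin 2 → K := φ ∘ X
  have hdt : D.dt tK ≠ 0 := by
    obtain ⟨c, hc⟩ := hn
    intro h
    apply hc
    have h3 : D.dt (X : Fin 2 → P2) = 0 := hinj (by
      rw [map_dt φ, map_zero]
      exact h)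
    have h5 := map_dt (aeval c : P2 →ₐ[ℂ] ℂ) D X
    rw [h3, map_zero] at h5
    have h6 : (aeval c : P2 →ₐ[ℂ] ℂ) ∘ X = c := by
      funext i
      simp
    rw [h6] at h5
    exact h5.symm
  have hδ : ∀ y : K, y ^ 2 ≠ D.del tK := by
    intro y hy
    obtain ⟨n, m, hm, rfl⟩ := IsFractionRing.div_surjective (A := P2) y
    have hm0 : m ≠ 0 := nonZeroDivisors.ne_zero hm
    have hm1 : algebraMap P2 K m ≠ 0 := fun h => hm0 (hinj (h.trans (map_zero φ).symm))
    apply hm0
    refine del_nonsq hsm ha hb hn m n (hinj ?_)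
    have h3 : φ (D.del (X : Fin 2 → P2)) = D.del tK := map_del φ D X
    rw [map_mul, map_pow, map_pow, h3, ← hy]
    change algebraMap P2 K m ^ 2 * (algebraMap P2 K n / algebraMap P2 K m) ^ 2 = algebraMap P2 K n ^ 2
    rw [div_pow, ← mul_div_assoc, mul_div_cancel_left₀ _ (pow_ne_zero 2 hm1)]
  have hs' : s = emb (fun j : Fin 4 => s j.castSucc) := by
    rw [emb_apply]
    funext j
    fin_cases j
    · rfl
    · rfl
    · rfl
    · rfl
    · exact hs4
  obtain ⟨s', hs'H, hs'4⟩ := line_E (K := K) (K' := K') hodd D tK hdt hδ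
    (fun j => φ (s j.castSucc)) (fun h => by
      apply hs
      rw [hs']
      have h3 : (fun j : Fin 4 => s j.castSucc) = 0 := by
        funext j
        exact hinj ((congrFun h j).trans (map_zero φ).symm)
      rw [h3, map_zero]) (fun i => by
      have h3 := map_H φ D X i s
      have h6 : φ ∘ s = emb (fun j : Fin 4 => φ (s j.castSucc)) := by
        conv_lhs => rw [hs']
        rw [map_emb]
        rfl
      rw [hH, map_zero, h6] at h3
      exact h3.symm) (v5 x) (H_of_fibre D (ψ ∘ tK) x h0 hq h1 h2) h4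
  obtain ⟨b, hb'⟩ := IsLocalization.exist_integer_multiples (nonZeroDivisors P2) Finset.univ s'
  choose! v hv using hb'
  have hv' : ∀ i, φ (v i) = φ b * s' i := by
    intro i
    have h3 := hv i (Finset.mem_univ i)
    change algebraMap P2 K (v i) = algebraMap P2 K b * s' i
    rw [h3, Algebra.smul_def]
  have hb0 : φ (b : P2) ≠ 0 := by
    intro h
    exact nonZeroDivisors.coe_ne_zero b (hinj (h.trans (map_zero φ).symm))
  refine ⟨v, fun i => ?_, ?_⟩
  · apply hinj
    rw [map_zero, map_H]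
    have h3 : φ ∘ v = φ (b : P2) • s' := by
      funext j
      exact hv' j
    rw [h3, QuadraticMap.map_smul]
    have h5 : D.H (φ ∘ X) i s' = 0 := hs'H i
    rw [h5, smul_zero]
  · intro h
    have h3 := hv' 4
    rw [h, map_zero] at h3
    exact mul_ne_zero hb0 hs'4 h3.symm

end Pool.Agent.Helper80.SD
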