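import Pool.Agent.Helper69.SD.Nat
import Pool.Agent.Helper5.OS.Springer

/-!
# SD: a point of the fibre outside the hyperplane `w = 0`

If the fibre contains a `K`-point with `w = 0` and a point with `w ≠ 0` over an extension of odd
degree, it contains a `K`-point with `w ≠ 0`.
-/

set_option autoImplicit false
set_option linter.unusedVariables false
set_option linter.unusedSectionVars false

namespace Pool.Agent.Helper80.SD

open Module Matrix QuadraticMap Pool.Agent.Helper69.SD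

section scalars

variable {K K' : Type*} [Field K] [CharZero K] [Field K'] [Algebra K K']

theorem aniso_K {δ : K} (hδ : ∀ x : K, x ^ 2 ≠ δ) {x y : K} (h : x ^ 2 = δ * y ^ 2) :
    x = 0 ∧ y = 0 := by
  by_cases hy : y = 0
  · subst hy
    refine ⟨?_, rfl⟩
    rw [zero_pow two_ne_zero, mul_zero] at h
    exact pow_eq_zero_iff two_ne_zero |>.1 h
  · exfalso
    apply hδ (x / y)
    rw [div_pow, h]
    field_simp

theorem aniso_K' (hodd : Odd (finrank K K')) {δ : K} (hδ : ∀ x : K, x ^ 2 ≠ δ) {x y : K'}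
    (h : x ^ 2 = algebraMap K K' δ * y ^ 2) : x = 0 ∧ y = 0 := by
  have : FiniteDimensional K K' := Module.finite_of_finrank_pos hodd.pos
  by_contra hcon
  have hv : (![x, y] : Fin 2 → K') ≠ 0 := by
    intro h0
    exact hcon ⟨congrFun h0 0, congrFun h0 1⟩
  obtain ⟨z, hz, hz0⟩ := Pool.Agent.Helper5.OS.springer hodd !![1, 0; 0, -δ] ![x, y] hv (by
    simp only [dotProduct, mulVec, Fin.sum_univ_two, map_apply]
    simp
    linear_combination h)
  simp only [dotProduct, mulVec, Fin.sum_univ_two] at hz0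
  simp at hz0
  obtain ⟨h1, h2⟩ := aniso_K hδ (x := z 0) (y := z 1) (by linear_combination hz0)
  apply hz
  funext i
  fin_cases i
  · exact h1
  · exact h2

/-- the conic -/
theorem conic_pt (hodd : Odd (finrank K K')) {δ c l1 l2 n : K} (hδ : ∀ x : K, x ^ 2 ≠ δ)
    (y1 y2 : K') (hy : ¬ (y1 = 0 ∧ y2 = 0))
    (h : algebraMap K K' n * (y1 ^ 2 - algebraMap K K' δ * y2 ^ 2) +
      (algebraMap K K' l1 * y1 + algebraMap K K' l2 * y2) + algebraMap K K' c = 0) :
    ∃ α z1 z2 : K, α ≠ 0 ∧ ¬ (z1 = 0 ∧ z2 = 0) ∧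
      n * (z1 ^ 2 - δ * z2 ^ 2) + α * (l1 * z1 + l2 * z2) + α ^ 2 * c = 0 := by
  have : FiniteDimensional K K' := Module.finite_of_finrank_pos hodd.pos
  have hinj : ∀ x : K, algebraMap K K' x = 0 → x = 0 := fun x hx =>
    (algebraMap K K').injective (by rw [hx, map_zero])
  by_cases hn : n = 0
  · subst hn
    by_cases h1 : l1 = 0
    · subst h1
      by_cases h2 : l2 = 0
      · subst h2
        have h3 : c = 0 := hinj c (by simpa using h)
        refine ⟨1, 1, 0, one_ne_zero, fun h4 => one_ne_zero h4.1, ?_⟩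
        rw [h3]
        ring
      · refine ⟨1, 1, -c / l2, one_ne_zero, fun h4 => one_ne_zero h4.1, ?_⟩
        field_simp
        ring
    · refine ⟨1, -(c + l2) / l1, 1, one_ne_zero, fun h4 => one_ne_zero h4.2, ?_⟩
      field_simp
      ring
  · have hδ0 : δ ≠ 0 := fun h4 => hδ 0 (by rw [h4]; ring)
    have hv : (![1, y1, y2] : Fin 3 → K') ≠ 0 := fun h0 => one_ne_zero (congrFun h0 0)
    have h23 : (algebraMap K K' 2)⁻¹ * 2 = 1 := by
      have h22 : algebraMap K K' 2 = 2 := map_ofNat _ 2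
      have h20 : algebraMap K K' 2 ≠ 0 := fun h4 => two_ne_zero (hinj 2 h4)
      rw [← h22]
      exact inv_mul_cancel₀ h20
    obtain ⟨z, hz, hz0⟩ := Pool.Agent.Helper5.OS.springer hodd
      !![c, l1 / 2, l2 / 2; l1 / 2, n, 0; l2 / 2, 0, -(n * δ)] ![1, y1, y2] hv (by
      simp only [dotProduct, mulVec, Fin.sum_univ_three, map_apply]
      simp
      linear_combination h + (algebraMap K K' l1 * y1 + algebraMap K K' l2 * y2) * h23)
    simp only [dotProduct, mulVec, Fin.sum_univ_three] at hz0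
    simp at hz0
    have hz1 : n * (z 1 ^ 2 - δ * z 2 ^ 2) + z 0 * (l1 * z 1 + l2 * z 2) + z 0 ^ 2 * c = 0 := by
      linear_combination hz0
    have hz00 : z 0 ≠ 0 := by
      intro h4
      rw [h4] at hz1
      have h5 : n * (z 1 ^ 2 - δ * z 2 ^ 2) = 0 := by linear_combination hz1
      have h6 := (mul_eq_zero.1 h5).resolve_left hn
      obtain ⟨h7, h8⟩ := aniso_K hδ (x := z 1) (y := z 2) (by linear_combination h6)
      apply hz
      funext i
      fin_cases i
      · exact h4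
      · exact h7
      · exact h8
    by_cases hz2 : z 1 = 0 ∧ z 2 = 0
    · rw [hz2.1, hz2.2] at hz1
      have hc : c = 0 := by
        have h5 : z 0 ^ 2 * c = 0 := by linear_combination hz1
        exact (mul_eq_zero.1 h5).resolve_left (pow_ne_zero _ hz00)
      subst hc
      by_cases h1 : l1 = 0
      · subst h1
        by_cases h2 : l2 = 0
        · subst h2
          exfalso
          apply hy
          refine aniso_K' hodd hδ ?_
          have h5 : algebraMap K K' n * (y1 ^ 2 - algebraMap K K' δ * y2 ^ 2) = 0 := by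
            simpa using h
          have h6 := (mul_eq_zero.1 h5).resolve_left fun h7 => hn (hinj n h7)
          linear_combination h6
        · refine ⟨-(n * δ), 0, -l2, neg_ne_zero.2 (mul_ne_zero hn hδ0),
            fun h4 => h2 (neg_eq_zero.1 h4.2), ?_⟩
          ring
      · refine ⟨n, -l1, 0, hn, fun h4 => h1 (neg_eq_zero.1 h4.1), ?_⟩
        ring
    · exact ⟨z 0, z 1, z 2, hz00, hz2, hz1⟩

/-- the quadrics in coordinates -/
def gq {R : Type*} [CommRing R] (δ a b m1 m2 h p1 p2 e x1 x2 y1 y2 α : R) : R :=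
  x1 * (a * y1 - b * y2 + α * m1) + x2 * (b * y1 - δ * a * y2 + α * m2) +
    h * (y1 ^ 2 - δ * y2 ^ 2) + α * (p1 * y1 + p2 * y2) + α ^ 2 * e

/-- the residual point -/
theorem resid {δ a b h p1 p2 e a' b' m1 m2 h' p1' p2' e' : K} (y1 y2 α : K) (hα : α ≠ 0)
    (hk : (a * y1 - b * y2) * (b' * y1 - δ * a' * y2 + α * m2) -
      (b * y1 - δ * a * y2) * (a' * y1 - b' * y2 + α * m1) ≠ 0) :
    ∃ X1 X2 Y1 Y2 A : K, A ≠ 0 ∧ gq δ a b 0 0 h p1 p2 e X1 X2 Y1 Y2 A = 0 ∧
      gq δ a' b' m1 m2 h' p1' p2' e' X1 X2 Y1 Y2 A = 0 := by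
  obtain ⟨k0, hk0⟩ : ∃ k0, k0 = (a * y1 - b * y2) * (b' * y1 - δ * a' * y2 + α * m2) -
      (b * y1 - δ * a * y2) * (a' * y1 - b' * y2 + α * m1) := ⟨_, rfl⟩
  obtain ⟨q1, hq1⟩ : ∃ q1, q1 = h * (y1 ^ 2 - δ * y2 ^ 2) + α * (p1 * y1 + p2 * y2) + α ^ 2 * e :=
    ⟨_, rfl⟩
  obtain ⟨q2, hq2⟩ : ∃ q2, q2 = h' * (y1 ^ 2 - δ * y2 ^ 2) + α * (p1' * y1 + p2' * y2) +
    α ^ 2 * e' := ⟨_, rfl⟩
  refine ⟨(b * y1 - δ * a * y2) * q2 - q1 * (b' * y1 - δ * a' * y2 + α * m2),
    q1 * (a' * y1 - b' * y2 + α * m1) - (a * y1 - b * y2) * q2, k0 * y1, k0 * y2, k0 * α,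
    mul_ne_zero (by rw [hk0]; exact hk) hα, ?_, ?_⟩
  · rw [gq, hq1, hk0]
    ring
  · rw [gq, hq2, hk0]
    ring

/-- case (E) in coordinates -/
theorem line_coords (hodd : Odd (finrank K K')) {δ : K} (hδ : ∀ x : K, x ^ 2 ≠ δ)
    {a b h p1 p2 e a' b' m1 m2 h' p1' p2' e' : K} (hab : ¬ (a = 0 ∧ b = 0)) (x1 x2 y1 y2 : K')
    (H1 : gq (algebraMap K K' δ) (algebraMap K K' a) (algebraMap K K' b) 0 0
      (algebraMap K K' h) (algebraMap K K' p1) (algebraMap K K' p2) (algebraMap K K' e)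
      x1 x2 y1 y2 1 = 0)
    (H2 : gq (algebraMap K K' δ) (algebraMap K K' a') (algebraMap K K' b') (algebraMap K K' m1)
      (algebraMap K K' m2) (algebraMap K K' h') (algebraMap K K' p1') (algebraMap K K' p2')
      (algebraMap K K' e') x1 x2 y1 y2 1 = 0) :
    ∃ X1 X2 Y1 Y2 A : K, A ≠ 0 ∧ gq δ a b 0 0 h p1 p2 e X1 X2 Y1 Y2 A = 0 ∧
      gq δ a' b' m1 m2 h' p1' p2' e' X1 X2 Y1 Y2 A = 0 := by
  have hinj : ∀ x : K, algebraMap K K' x = 0 → x = 0 := fun x hx =>
    (algebraMap K K').injective (by rw [hx, map_zero])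
  by_cases k1 : (a * 1 - b * 0) * (b' * 1 - δ * a' * 0 + 1 * m2) -
      (b * 1 - δ * a * 0) * (a' * 1 - b' * 0 + 1 * m1) = 0
  swap
  · exact resid 1 0 1 one_ne_zero k1
  by_cases k2 : (a * (-1) - b * 0) * (b' * (-1) - δ * a' * 0 + 1 * m2) -
      (b * (-1) - δ * a * 0) * (a' * (-1) - b' * 0 + 1 * m1) = 0
  swap
  · exact resid (-1) 0 1 one_ne_zero k2
  by_cases k3 : (a * 0 - b * 1) * (b' * 0 - δ * a' * 1 + 1 * m2) -
      (b * 0 - δ * a * 1) * (a' * 0 - b' * 1 + 1 * m1) = 0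
  swap
  · exact resid 0 1 1 one_ne_zero k3
  have e1 : a * b' = b * a' := by
    have h2 : (2 : K) * (a * b' - b * a') = 0 := by linear_combination k1 + k2
    linear_combination (mul_eq_zero.1 h2).resolve_left two_ne_zero
  have e2 : a * m2 = b * m1 := by linear_combination k1 - e1
  have e3 : b * m2 = δ * a * m1 := by linear_combination -k3 - δ * e1
  have hΔ : b ^ 2 - δ * a ^ 2 ≠ 0 := by
    intro h2
    obtain ⟨h3, h4⟩ := aniso_K hδ (x := b) (y := a) (by linear_combination h2)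
    exact hab ⟨h4, h3⟩
  have hm1 : m1 = 0 := by
    have h2 : (b ^ 2 - δ * a ^ 2) * m1 = 0 := by linear_combination -b * e2 + a * e3
    exact (mul_eq_zero.1 h2).resolve_left hΔ
  subst hm1
  have hm2 : m2 = 0 := by
    have h2 : (b ^ 2 - δ * a ^ 2) * m2 = 0 := by linear_combination b * e3 - δ * a * e2
    exact (mul_eq_zero.1 h2).resolve_left hΔ
  subst hm2
  obtain ⟨μ, hμ1, hμ2⟩ : ∃ μ : K, a' = μ * a ∧ b' = μ * b := by
    by_cases ha : a = 0
    · have hb : b ≠ 0 := fun hb => hab ⟨ha, hb⟩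
      refine ⟨b' / b, ?_, ?_⟩
      · rw [ha, mul_zero]
        rw [ha, zero_mul] at e1
        exact (mul_eq_zero.1 e1.symm).resolve_left hb
      · field_simp
    · refine ⟨a' / a, ?_, ?_⟩
      · field_simp
      · field_simp
        linear_combination e1
  subst hμ1 hμ2
  by_cases hy : y1 = 0 ∧ y2 = 0
  · rw [hy.1, hy.2, gq] at H1 H2
    have he : e = 0 := hinj e (by linear_combination H1)
    have he' : e' = 0 := hinj e' (by
      rw [map_zero] at H2
      linear_combination H2)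
    refine ⟨0, 0, 0, 0, 1, one_ne_zero, ?_, ?_⟩
    · rw [gq, he]
      ring
    · rw [gq, he']
      ring
  obtain ⟨α, z1, z2, hα, hz, hz0⟩ := conic_pt (K' := K') hodd (c := e' - μ * e)
    (l1 := p1' - μ * p1) (l2 := p2' - μ * p2) (n := h' - μ * h) hδ y1 y2 hy (by
      simp only [map_sub, map_mul]
      rw [gq] at H1 H2
      simp only [map_mul, map_zero] at H2
      linear_combination H2 - algebraMap K K' μ * H1)
  obtain ⟨q, hq⟩ : ∃ q, q = h * (z1 ^ 2 - δ * z2 ^ 2) + α * (p1 * z1 + p2 * z2) + α ^ 2 * e :=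
    ⟨_, rfl⟩
  obtain ⟨X1, X2, hX⟩ : ∃ X1 X2 : K, X1 * (a * z1 - b * z2) + X2 * (b * z1 - δ * a * z2) = -q := by
    by_cases f1 : a * z1 - b * z2 = 0
    · by_cases f2 : b * z1 - δ * a * z2 = 0
      · exfalso
        apply hz
        have h2 : (b ^ 2 - δ * a ^ 2) * z1 = 0 := by linear_combination b * f2 - δ * a * f1
        have h3 : (b ^ 2 - δ * a ^ 2) * z2 = 0 := by linear_combination a * f2 - b * f1
        exact ⟨(mul_eq_zero.1 h2).resolve_left hΔ, (mul_eq_zero.1 h3).resolve_left hΔ⟩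
      · refine ⟨0, -q / (b * z1 - δ * a * z2), ?_⟩
        rw [zero_mul, zero_add, div_mul_cancel₀ _ f2]
    · refine ⟨-q / (a * z1 - b * z2), 0, ?_⟩
      rw [zero_mul, add_zero, div_mul_cancel₀ _ f1]
  refine ⟨X1, X2, z1, z2, α, hα, ?_, ?_⟩
  · rw [gq]
    linear_combination hX - hq
  · rw [gq]
    linear_combination μ * hX - μ * hq + hz0

end scalars

section vectors

variable {R : Type} [CommRing R] [Algebra ℂ R]

theorem P_self [IsDomain R] [CharZero R] (D : Dat) (t : Fin 2 → R) (i : Fin 2) (v : Fin 4 → R) :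
    polar (D.H t i) (emb v) (emb (D.Th t v)) = 0 := by
  have h2 := skewH D t i v v
  rw [polar_comm (D.H t i) (emb (D.Th t v))] at h2
  have h3 : (2 : R) * polar (D.H t i) (emb v) (emb (D.Th t v)) = 0 := by linear_combination h2
  exact (mul_eq_zero.1 h3).resolve_left two_ne_zero

theorem H_Th [IsDomain R] [CharZero R] (D : Dat) (t : Fin 2 → R) (i : Fin 2) (v : Fin 4 → R) :
    D.H t i (emb (D.Th t v)) = -D.del t * D.H t i (emb v) := by
  have h5 := skewH D t i v (D.Th t v)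
  rw [Th_Th, map_smul, polar_smul_right, polar_self, polar_self] at h5
  have h6 : (2 : R) * (D.H t i (emb (D.Th t v)) + D.del t * D.H t i (emb v)) = 0 := by
    simp only [smul_eq_mul, nsmul_eq_mul, Nat.cast_ofNat] at h5
    linear_combination h5
  linear_combination (mul_eq_zero.1 h6).resolve_left two_ne_zero

theorem P_Th_Th (D : Dat) (t : Fin 2 → R) (i : Fin 2) (v v' : Fin 4 → R) :
    polar (D.H t i) (emb (D.Th t v)) (emb (D.Th t v')) =
      -(D.del t * polar (D.H t i) (emb v) (emb v')) := by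
  rw [skewH, Th_Th, map_smul, polar_smul_right, smul_eq_mul]

theorem P_Th_right (D : Dat) (t : Fin 2 → R) (i : Fin 2) (v v' : Fin 4 → R) :
    polar (D.H t i) (emb v) (emb (D.Th t v')) = -polar (D.H t i) (emb (D.Th t v)) (emb v') := by
  rw [skewH, neg_neg]

theorem H_add (D : Dat) (t : Fin 2 → R) (i : Fin 2) (x y : Fin 5 → R) :
    D.H t i (x + y) = D.H t i x + D.H t i y + polar (D.H t i) x y := by
  rw [polar]
  ring

/-- the quadrics in the coordinates of `s, Θ s, u, Θ u, v` -/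
theorem H_coords [IsDomain R] [CharZero R] (D : Dat) (t : Fin 2 → R) (i : Fin 2)
    (s u : Fin 4 → R) (v : Fin 5 → R) (hs : D.H t i (emb s) = 0) (x1 x2 y1 y2 α : R) :
    D.H t i (emb (x1 • s + x2 • D.Th t s + (y1 • u + y2 • D.Th t u)) + α • v) =
      gq (D.del t) (polar (D.H t i) (emb s) (emb u)) (polar (D.H t i) (emb (D.Th t s)) (emb u))
        (polar (D.H t i) (emb s) v) (polar (D.H t i) (emb (D.Th t s)) v)
        (D.H t i (emb u)) (polar (D.H t i) (emb u) v) (polar (D.H t i) (emb (D.Th t u)) v)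
        (D.H t i v) x1 x2 y1 y2 α := by
  simp only [map_add, map_smul, H_add, QuadraticMap.map_smul, polar_add_left, polar_add_right,
    polar_smul_left, polar_smul_right, smul_eq_mul, hs, H_Th, P_self, P_Th_Th]
  rw [P_Th_right D t i s u, gq]
  ring

theorem map_P {R' : Type} [CommRing R'] [Algebra ℂ R'] (φ : R →ₐ[ℂ] R') (D : Dat) (t : Fin 2 → R)
    (i : Fin 2) (x y : Fin 5 → R) :
    φ (polar (D.H t i) x y) = polar (D.H (φ ∘ t) i) (φ ∘ x) (φ ∘ y) := by
  have h : φ ∘ (x + y) = φ ∘ x + φ ∘ y := by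
    funext j
    simp
  simp only [polar, map_sub, map_H, h]

end vectors

section field

variable {L : Type} [Field L] [Algebra ℂ L] [CharZero L]

/-- `s, Θ s, u, Θ u` span the space `w = 0` -/
theorem span_four (D : Dat) (t : Fin 2 → L)
    (hδ : ∀ x y : L, x ^ 2 = D.del t * y ^ 2 → x = 0 ∧ y = 0) (s u : Fin 4 → L) (hs : s ≠ 0)
    (hs0 : D.H t 0 (emb s) = 0)
    (hab : ¬ (polar (D.H t 0) (emb s) (emb u) = 0 ∧
      polar (D.H t 0) (emb (D.Th t s)) (emb u) = 0)) (v : Fin 4 → L) :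
    ∃ x1 x2 y1 y2 : L, v = x1 • s + x2 • D.Th t s + (y1 • u + y2 • D.Th t u) := by
  have hli : LinearIndependent L ![s, D.Th t s, u, D.Th t u] := by
    rw [Fintype.linearIndependent_iff]
    intro g hg
    simp only [Fin.sum_univ_four] at hg
    have hg' : g 0 • s + g 1 • D.Th t s + (g 2 • u + g 3 • D.Th t u) = 0 := by
      rw [← hg]
      simp only [cons_val_zero, cons_val_one, cons_val]
      abel
    have e1 : polar (D.H t 0) (emb s)
        (emb (g 0 • s + g 1 • D.Th t s + (g 2 • u + g 3 • D.Th t u))) = 0 := by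
      rw [hg', map_zero, polar_zero_right]
    have e2 : polar (D.H t 0) (emb (D.Th t s))
        (emb (g 0 • s + g 1 • D.Th t s + (g 2 • u + g 3 • D.Th t u))) = 0 := by
      rw [hg', map_zero, polar_zero_right]
    simp only [map_add, map_smul, polar_add_right, polar_smul_right, smul_eq_mul, polar_self, hs0,
      P_self, P_Th_Th, P_Th_right D t 0 s u, H_Th, polar_comm (D.H t 0) (emb (D.Th t s)) (emb s)]
      at e1 e2
    obtain ⟨a, ha⟩ : ∃ a, a = polar (D.H t 0) (emb s) (emb u) := ⟨_, rfl⟩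
    obtain ⟨b, hb⟩ : ∃ b, b = polar (D.H t 0) (emb (D.Th t s)) (emb u) := ⟨_, rfl⟩
    rw [← ha, ← hb] at e1 e2 hab
    simp only [smul_zero, mul_zero, zero_add] at e1 e2
    have hΔ : b ^ 2 - D.del t * a ^ 2 ≠ 0 := by
      intro h2
      obtain ⟨h3, h4⟩ := hδ b a (by linear_combination h2)
      exact hab ⟨h4, h3⟩
    have h2 : g 2 = 0 := by
      have h3 : (b ^ 2 - D.del t * a ^ 2) * g 2 = 0 := by
        linear_combination b * e2 - D.del t * a * e1
      exact (mul_eq_zero.1 h3).resolve_left hΔ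
    have h3 : g 3 = 0 := by
      have h3 : (b ^ 2 - D.del t * a ^ 2) * g 3 = 0 := by
        linear_combination a * e2 - b * e1
      exact (mul_eq_zero.1 h3).resolve_left hΔ
    rw [h2, h3, zero_smul, zero_smul, add_zero, add_zero] at hg'
    have h4 : g 0 • D.Th t s + (g 1 * D.del t) • s = 0 := by
      have h5 := congrArg (D.Th t) hg'
      rw [map_add, map_smul, map_smul, Th_Th, smul_smul, map_zero] at h5
      exact h5
    have h5 : (g 0 ^ 2 - D.del t * g 1 ^ 2) • s = 0 := by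
      have h6 : (g 0 ^ 2 - D.del t * g 1 ^ 2) • s = g 0 • (g 0 • s + g 1 • D.Th t s) -
          g 1 • (g 0 • D.Th t s + (g 1 * D.del t) • s) := by
        funext j
        simp only [Pi.smul_apply, Pi.add_apply, Pi.sub_apply, smul_eq_mul]
        ring
      rw [h6, hg', h4, smul_zero, smul_zero, sub_zero]
    have h6 := (smul_eq_zero.1 h5).resolve_right hs
    obtain ⟨h7, h8⟩ := hδ (g 0) (g 1) (by linear_combination h6)
    intro i
    fin_cases i
    · exact h7
    · exact h8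
    · exact h2
    · exact h3
  have hspan := hli.span_eq_top_of_card_eq_finrank (by simp)
  have hv : v ∈ Submodule.span L (Set.range ![s, D.Th t s, u, D.Th t u]) := by
    rw [hspan]
    trivial
  rw [Submodule.mem_span_range_iff_exists_fun] at hv
  obtain ⟨c, hc⟩ := hv
  refine ⟨c 0, c 1, c 2, c 3, ?_⟩
  rw [← hc, Fin.sum_univ_four]
  simp only [cons_val_zero, cons_val_one, cons_val]
  abel

end field

/-- `x'ᵀ n y'` is not degenerate -/
theorem exists_pair {K : Type} [Field K] [Algebra ℂ K] (D : Dat) (t : Fin 2 → K)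
    (hdt : D.dt t ≠ 0) (s : Fin 4 → K) (hs : s ≠ 0) :
    ∃ u : Fin 4 → K, polar (D.H t 0) (emb s) (emb u) ≠ 0 := by
  by_contra hcon
  push Not at hcon
  have hP : ∀ u : Fin 4 → K, (u 2 * (D.n t 0 0 * s 0 + D.n t 1 0 * s 1) +
      u 3 * (D.n t 0 1 * s 0 + D.n t 1 1 * s 1)) + (s 2 * (D.n t 0 0 * u 0 + D.n t 1 0 * u 1) +
      s 3 * (D.n t 0 1 * u 0 + D.n t 1 1 * u 1)) = 0 := by
    intro u
    rw [← hcon u]
    change _ = polar (D.H1 t) (emb s) (emb u)
    simp only [polar, H1_apply, Bq_apply, cx_apply, emb_apply, Pi.add_apply]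
    simp [Dat.n]
    ring
  have h0 := hP ![1, 0, 0, 0]
  have h1 := hP ![0, 1, 0, 0]
  have h2 := hP ![0, 0, 1, 0]
  have h3 := hP ![0, 0, 0, 1]
  simp at h0 h1 h2 h3
  apply hs
  have e0 : D.dt t * s 0 = 0 := by
    rw [Dat.dt]
    linear_combination D.n t 1 1 * h2 - D.n t 1 0 * h3
  have e1 : D.dt t * s 1 = 0 := by
    rw [Dat.dt]
    linear_combination D.n t 0 0 * h3 - D.n t 0 1 * h2
  have e2 : D.dt t * s 2 = 0 := by
    rw [Dat.dt]
    linear_combination D.n t 1 1 * h0 - D.n t 0 1 * h1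
  have e3 : D.dt t * s 3 = 0 := by
    rw [Dat.dt]
    linear_combination D.n t 0 0 * h1 - D.n t 1 0 * h0
  funext i
  fin_cases i
  · exact (mul_eq_zero.1 e0).resolve_left hdt
  · exact (mul_eq_zero.1 e1).resolve_left hdt
  · exact (mul_eq_zero.1 e2).resolve_left hdt
  · exact (mul_eq_zero.1 e3).resolve_left hdt

/-- **Case (E).**  A `K`-point of the fibre with `w = 0` and a point with `w ≠ 0` over an extension
of odd degree give a `K`-point with `w ≠ 0`. -/
theorem line_E {K K' : Type} [Field K] [Algebra ℂ K] [Field K'] [Algebra ℂ K'] [Algebra K K']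
    [IsScalarTower ℂ K K'] (hodd : Odd (finrank K K')) (D : Dat) (t : Fin 2 → K)
    (hdt : D.dt t ≠ 0) (hδ : ∀ x : K, x ^ 2 ≠ D.del t) (s : Fin 4 → K) (hs : s ≠ 0)
    (hHs : ∀ i, D.H t i (emb s) = 0) (ξ : Fin 5 → K')
    (hξ : ∀ i, D.H (algebraMap K K' ∘ t) i ξ = 0) (hξ4 : ξ 4 ≠ 0) :
    ∃ s' : Fin 5 → K, (∀ i, D.H t i s' = 0) ∧ s' 4 ≠ 0 := by
  have : CharZero K := charZero_of_injective_algebraMap (algebraMap ℂ K).injective
  have : CharZero K' := charZero_of_injective_algebraMap (algebraMap ℂ K').injective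
  obtain ⟨φ, hφ⟩ : ∃ φ : K →ₐ[ℂ] K', φ = IsScalarTower.toAlgHom ℂ K K' := ⟨_, rfl⟩
  have hφa : ∀ x, algebraMap K K' x = φ x := fun x => by rw [hφ]; rfl
  have hinj : Function.Injective φ := by
    rw [hφ]
    exact (algebraMap K K').injective
  have hφt : algebraMap K K' ∘ t = φ ∘ t := by
    funext j
    exact hφa _
  rw [hφt] at hξ
  obtain ⟨u, hu⟩ := exists_pair D t hdt s hs
  obtain ⟨a, ha⟩ : ∃ a, a = polar (D.H t 0) (emb s) (emb u) := ⟨_, rfl⟩
  obtain ⟨b, hb⟩ : ∃ b, b = polar (D.H t 0) (emb (D.Th t s)) (emb u) := ⟨_, rfl⟩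
  have hab : ¬ (a = 0 ∧ b = 0) := fun h => hu (ha ▸ h.1)
  have hΔ : b ^ 2 - D.del t * a ^ 2 ≠ 0 := by
    intro h2
    obtain ⟨h3, h4⟩ := aniso_K hδ (x := b) (y := a) (by linear_combination h2)
    exact hab ⟨h4, h3⟩
  -- the vector `v` orthogonal to `s`, `Θ s`
  obtain ⟨v, hv4, hv1, hv2⟩ : ∃ v : Fin 5 → K, v 4 = 1 ∧ polar (D.H t 0) (emb s) v = 0 ∧
      polar (D.H t 0) (emb (D.Th t s)) v = 0 := by
    obtain ⟨e, he⟩ : ∃ e : Fin 5 → K, e = ![0, 0, 0, 0, 1] := ⟨_, rfl⟩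
    obtain ⟨n1, hn1⟩ : ∃ n1, n1 = polar (D.H t 0) (emb s) e := ⟨_, rfl⟩
    obtain ⟨n2, hn2⟩ : ∃ n2, n2 = polar (D.H t 0) (emb (D.Th t s)) e := ⟨_, rfl⟩
    refine ⟨e + emb (((D.del t * a * n1 - b * n2) / (b ^ 2 - D.del t * a ^ 2)) • u +
      ((b * n1 - a * n2) / (b ^ 2 - D.del t * a ^ 2)) • D.Th t u), ?_, ?_, ?_⟩
    · rw [he, emb_apply]
      simp
    · rw [polar_add_right, map_add, map_smul, map_smul, polar_add_right, polar_smul_right,
        polar_smul_right, P_Th_right, ← ha, ← hb, ← hn1, smul_eq_mul, smul_eq_mul]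
      field_simp
      ring
    · rw [polar_add_right, map_add, map_smul, map_smul, polar_add_right, polar_smul_right,
        polar_smul_right, P_Th_Th, ← ha, ← hb, ← hn2, smul_eq_mul, smul_eq_mul]
      field_simp
      ring
  -- coordinates of the point over `K'`
  obtain ⟨x1, x2, y1, y2, hx⟩ : ∃ x1 x2 y1 y2 : K', ξ = ξ 4 • (emb (x1 • (φ ∘ s) +
      x2 • D.Th (φ ∘ t) (φ ∘ s) + (y1 • (φ ∘ u) + y2 • D.Th (φ ∘ t) (φ ∘ u))) +
      (1 : K') • (φ ∘ v)) := by
    have hs' : φ ∘ s ≠ 0 := by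
      intro h
      apply hs
      funext j
      have h2 := congrFun h j
      exact (map_eq_zero_iff φ hinj).1 h2
    have h1 : polar (D.H (φ ∘ t) 0) (emb (φ ∘ s)) (emb (φ ∘ u)) = φ a := by
      rw [ha, map_P, map_emb, map_emb]
    have h2 : polar (D.H (φ ∘ t) 0) (emb (D.Th (φ ∘ t) (φ ∘ s))) (emb (φ ∘ u)) = φ b := by
      rw [hb, map_P, map_emb, map_emb, map_Th]
    obtain ⟨x1, x2, y1, y2, hx⟩ := span_four D (φ ∘ t) (fun x y hxy => by
        refine aniso_K' hodd hδ ?_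
        rw [hφa, map_del]
        exact hxy) (φ ∘ s) (φ ∘ u) hs' (by rw [← map_emb, ← map_H, hHs, map_zero])
      (by
        rw [h1, h2, map_eq_zero_iff φ hinj, map_eq_zero_iff φ hinj]
        exact hab) (fun j => (ξ 4)⁻¹ * ξ j.castSucc - φ (v j.castSucc))
    refine ⟨x1, x2, y1, y2, ?_⟩
    rw [← hx, emb_apply]
    funext j
    fin_cases j
    · change ξ 0 = ξ 4 * (((ξ 4)⁻¹ * ξ 0 - φ (v 0)) + 1 * φ (v 0))
      field_simp
      ring
    · change ξ 1 = ξ 4 * (((ξ 4)⁻¹ * ξ 1 - φ (v 1)) + 1 * φ (v 1))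
      field_simp
      ring
    · change ξ 2 = ξ 4 * (((ξ 4)⁻¹ * ξ 2 - φ (v 2)) + 1 * φ (v 2))
      field_simp
      ring
    · change ξ 3 = ξ 4 * (((ξ 4)⁻¹ * ξ 3 - φ (v 3)) + 1 * φ (v 3))
      field_simp
      ring
    · change ξ 4 = ξ 4 * (0 + 1 * φ (v 4))
      rw [hv4, map_one]
      ring
  have hgq : ∀ i, gq (φ (D.del t)) (φ (polar (D.H t i) (emb s) (emb u)))
      (φ (polar (D.H t i) (emb (D.Th t s)) (emb u))) (φ (polar (D.H t i) (emb s) v))
      (φ (polar (D.H t i) (emb (D.Th t s)) v)) (φ (D.H t i (emb u)))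
      (φ (polar (D.H t i) (emb u) v)) (φ (polar (D.H t i) (emb (D.Th t u)) v))
      (φ (D.H t i v)) x1 x2 y1 y2 1 = 0 := by
    intro i
    have h1 := hξ i
    rw [hx, QuadraticMap.map_smul, H_coords D (φ ∘ t) i (φ ∘ s) (φ ∘ u) (φ ∘ v)
      (by rw [← map_emb, ← map_H, hHs, map_zero])] at h1
    simp only [map_del, map_P, map_H, map_emb, map_Th]
    have h2 : ξ 4 * ξ 4 ≠ 0 := mul_ne_zero hξ4 hξ4
    exact (smul_eq_zero.1 h1).resolve_left h2
  have g0 := hgq 0
  rw [hv1, hv2, map_zero, ← ha, ← hb] at g0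
  have g1 := hgq 1
  simp only [← hφa] at g0 g1
  obtain ⟨X1, X2, Y1, Y2, A, hA, r0, r1⟩ := line_coords hodd hδ hab x1 x2 y1 y2 g0 g1
  refine ⟨emb (X1 • s + X2 • D.Th t s + (Y1 • u + Y2 • D.Th t u)) + A • v, fun i => ?_, ?_⟩
  · rw [H_coords D t i s u v (hHs i)]
    fin_cases i
    · change gq _ (polar (D.H t 0) (emb s) (emb u)) (polar (D.H t 0) (emb (D.Th t s)) (emb u))
        (polar (D.H t 0) (emb s) v) (polar (D.H t 0) (emb (D.Th t s)) v) _ _ _ _ X1 X2 Y1 Y2 A = 0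
      rw [hv1, hv2, ← ha, ← hb]
      exact r0
    · exact r1
  · rw [emb_apply]
    change 0 + A * v 4 ≠ 0
    rw [hv4, zero_add, mul_one]
    exact hA

end Pool.Agent.Helper80.SD
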